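import Mathlib
import Pool.Agent.E8helper37.KS.Zero
import Pool.Agent.W332.OK.Final

/-!
# MP_1f047c_nt, Q1 and Q2: kernel vectors on curves of small degree

Let `M` be a matrix of logarithms of algebraic numbers (complex or `p`-adic) and `v` a kernel vector.

* `ClosureBound`: if `Z · v ⊆ D` for two finite dimensional spaces `Z`, `D` over the algebraic numbers,
  then for every algebraic vector `u` in the Zariski closure of the line through `v` the coordinates
  of `M u` span a space of dimension at most `dim D (dim D - 1) / dim Z`.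
* `ZeroFromPoint`: the conclusion of Q1 and Q2 if `u ≠ 0` has coordinates in a number field `K` and
  `n dim Z > dim D (dim D - 1) [K : ℚ]`.
* `CommonRoot`: polynomials of degree at most `e` whose coefficients are logarithms and which have
  a common transcendental zero `t` take at every rational `c` values which span a space of
  dimension at most `4 e - 2` over `ℚ` (`CommonRootAlg`: linear forms with algebraic coefficients).
* `OneParameter`: the conclusion of Q1 and Q2 holds for `n × n` matrices with a left or right kernel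
  vector `(P_1(t), …, P_n(t))`, where `t` is any number and the `P_j` are polynomials of degree at
  most `e` over a number field `K`, if `n > (4 e - 2) [K : ℚ]`.
* `Parameters`: the same for `r` algebraically independent parameters.
* `SpanCase`: the same for kernel vectors with coordinates in `K x_1 + ⋯ + K x_d`, `n > d (d - 1) [K : ℚ]`.
-/

set_option autoImplicit false

namespace Pool.Agent.Results.MP_1f047c_nt.KernelCurveH37

open Module Polynomial

/-- The field of the algebraic numbers contained in `E`. -/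
noncomputable abbrev Alg (E : Type) [Field E] [CharZero E] : IntermediateField ℚ E :=
  algebraicClosure ℚ E

/-- The linear combinations, with algebraic coefficients, of `1` and the elements of `Λ`. -/
noncomputable def LinForms {E : Type} [Field E] [CharZero E] (Λ : Set E) : Submodule (Alg E) E :=
  Submodule.span (Alg E) ({1} ∪ Λ)

/-- The vector `u` of algebraic numbers lies in the Zariski closure, over the field of the algebraic
numbers, of the line `{s v : s ∈ E}`. -/
def InClosure {E : Type} [Field E] [CharZero E] {m : ℕ} (v : Fin m → E) (u : Fin m → Alg E) : Prop :=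
  ∀ f : MvPolynomial (Fin m) (Alg E), (∀ s : E, MvPolynomial.aeval (fun j => s * v j) f = 0) →
    MvPolynomial.eval u f = 0

/-- The conclusion of Q1 and Q2. -/
def HasRationalZero {E : Type} [Field E] [CharZero E] {n : ℕ} (M : Matrix (Fin n) (Fin n) E) : Prop :=
  ∃ w u : Fin n → ℚ, w ≠ 0 ∧ u ≠ 0 ∧ ∑ i, ∑ j, (w i : E) * M i j * (u j : E) = 0

/-- The dimension over the algebraic numbers of the space generated by `x_1, …, x_n`. -/
noncomputable def dimSpan {E : Type} [Field E] [CharZero E] {n : ℕ} (x : Fin n → E) : ℕ :=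
  finrank (Alg E) (Submodule.span (Alg E) (Set.range x))

/-- `v` is a left or right kernel vector of `M`. -/
def IsKernel {E : Type} [Field E] {n : ℕ} (M : Matrix (Fin n) (Fin n) E) (v : Fin n → E) : Prop :=
  M.mulVec v = 0 ∨ M.vecMul v = 0

/-- `Z` and `D` are finite dimensional spaces over the algebraic numbers and `D` contains all
products of elements of `Z` and coordinates of `v`. -/
def Multiplies {E : Type} [Field E] [CharZero E] {m : ℕ} (v : Fin m → E)
    (Z D : Submodule (Alg E) E) : Prop :=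
  FiniteDimensional (Alg E) Z ∧ FiniteDimensional (Alg E) D ∧ ∀ z ∈ Z, ∀ j, z * v j ∈ D

/-- The matrix `M` has entries in `Λ`. -/
def Over {E : Type} {n m : ℕ} (Λ : Set E) (M : Matrix (Fin n) (Fin m) E) : Prop :=
  ∀ i j, M i j ∈ Λ

/-- The rank bound. -/
def ClosureBound (E : Type) [Field E] [CharZero E] (Λ : Set E) : Prop :=
  ∀ (n m : ℕ) (M : Matrix (Fin n) (Fin m) E), Over (LinForms Λ : Set E) M →
    ∀ v : Fin m → E, M.mulVec v = 0 → ∀ Z D : Submodule (Alg E) E, Multiplies v Z D →
    ∀ u : Fin m → Alg E, InClosure v u →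
    finrank (Alg E) Z * dimSpan (M.mulVec (fun j => (u j : E))) ≤
      finrank (Alg E) D * (finrank (Alg E) D - 1)

/-- Rational zeros from points of the closure. -/
def ZeroFromPoint (E : Type) [Field E] [CharZero E] (Λ : Set E) : Prop :=
  ∀ (n : ℕ) (M : Matrix (Fin n) (Fin n) E), Over Λ M → ∀ v : Fin n → E, IsKernel M v →
    ∀ Z D : Submodule (Alg E) E, Multiplies v Z D →
    ∀ (K : Type) [Field K] [NumberField K] (ι : K →+* Alg E) (u : Fin n → K), u ≠ 0 →
    InClosure v (fun j => ι (u j)) →
    finrank (Alg E) D * (finrank (Alg E) D - 1) * finrank ℚ K < n * finrank (Alg E) Z →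
    HasRationalZero M

/-- Polynomials with coefficients in `Λ` and a common transcendental zero. -/
def CommonRoot (E : Type) [Field E] [CharZero E] (Λ : Set E) : Prop :=
  ∀ (n e : ℕ) (F : Fin n → E[X]), 1 ≤ e → (∀ i, (F i).natDegree ≤ e) →
    (∀ i k, (F i).coeff k ∈ Λ) → ∀ t : E, Transcendental ℚ t → (∀ i, (F i).eval t = 0) →
    ∀ c : ℚ, finrank ℚ (Submodule.span ℚ (Set.range fun i => (F i).eval (c : E))) ≤ 4 * e - 2

/-- Polynomials whose coefficients are linear forms in the elements of `Λ`. -/
def CommonRootAlg (E : Type) [Field E] [CharZero E] (Λ : Set E) : Prop :=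
  ∀ (n e : ℕ) (F : Fin n → E[X]), 1 ≤ e → (∀ i, (F i).natDegree ≤ e) →
    (∀ i k, (F i).coeff k ∈ LinForms Λ) → ∀ t : E, Transcendental ℚ t →
    (∀ i, (F i).eval t = 0) → ∀ c : Alg E, dimSpan (fun i => (F i).eval (c : E)) ≤ 4 * e - 2

/-- Kernel vectors whose coordinates are polynomials in one number. -/
def OneParameter (E : Type) [Field E] [CharZero E] (Λ : Set E) : Prop :=
  ∀ (n e : ℕ) (M : Matrix (Fin n) (Fin n) E), Over Λ M →
    ∀ (K : Type) [Field K] [NumberField K] (ι : K →+* E), 1 ≤ e → (4 * e - 2) * finrank ℚ K < n →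
    ∀ P : Fin n → K[X], (∀ j, (P j).natDegree ≤ e) → ∀ t : E,
    (fun j => (P j).eval₂ ι t) ≠ 0 → IsKernel M (fun j => (P j).eval₂ ι t) → HasRationalZero M

/-- Kernel vectors whose coordinates are polynomials in algebraically independent numbers. -/
def Parameters (E : Type) [Field E] [CharZero E] (Λ : Set E) : Prop :=
  ∀ (n e r : ℕ) (M : Matrix (Fin n) (Fin n) E), Over Λ M →
    ∀ (K : Type) [Field K] [NumberField K] (ι : K →+* E), 1 ≤ e →
    2 ^ r * ((2 * e) ^ r - 1) * finrank ℚ K < n →
    ∀ P : Fin n → MvPolynomial (Fin r) K, (∀ j i, (P j).degreeOf i ≤ e) → ∀ t : Fin r → E,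
    AlgebraicIndependent ℚ t → (fun j => (P j).eval₂ ι t) ≠ 0 →
    IsKernel M (fun j => (P j).eval₂ ι t) → HasRationalZero M

/-- Kernel vectors with coordinates in `K x_1 + ⋯ + K x_d`. -/
def SpanCase (E : Type) [Field E] [CharZero E] (Λ : Set E) : Prop :=
  ∀ (n d : ℕ) (M : Matrix (Fin n) (Fin n) E), Over Λ M →
    ∀ (K : Type) [Field K] [NumberField K] (ι : K →+* E), d * (d - 1) * finrank ℚ K < n →
    ∀ (a : Fin d → Fin n → K) (x : Fin d → E), LinearIndependent (Alg E) x →
    (fun j => ∑ l, ι (a l j) * x l) ≠ 0 → IsKernel M (fun j => ∑ l, ι (a l j) * x l) →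
    HasRationalZero M

/-- The theorems proved here, for a set `Λ` of logarithms. -/
def Theorems (E : Type) [Field E] [CharZero E] (Λ : Set E) : Prop :=
  ClosureBound E Λ ∧ ZeroFromPoint E Λ ∧ CommonRoot E Λ ∧ CommonRootAlg E Λ ∧
    OneParameter E Λ ∧ Parameters E Λ ∧ SpanCase E Λ

/-- `L` is the Iwasawa `p`-adic logarithm on the algebraic closure of `ℚ_p`. -/
def IsIwasawaLog (p : ℕ) [Fact p.Prime] (L : PadicAlgCl p → PadicAlgCl p) : Prop :=
  (∀ x y : PadicAlgCl p, x ≠ 0 → y ≠ 0 → L (x * y) = L x + L y) ∧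
  L ((p : ℕ) : PadicAlgCl p) = 0 ∧
  ∀ z : PadicAlgCl p, ‖z‖ < 1 →
    HasSum (fun n : ℕ => (-1 : PadicAlgCl p) ^ n * z ^ (n + 1) / ((n : PadicAlgCl p) + 1))
      (L (1 + z))

section proofs

open Pool.Agent.W254.PA (Hyp)

variable {E : Type} [Field E] [CharZero E]

theorem HasRationalZero.transpose {n : ℕ} {M : Matrix (Fin n) (Fin n) E}
    (h : HasRationalZero M.transpose) : HasRationalZero M := by
  obtain ⟨w, u, hw, hu, h1⟩ := h
  refine ⟨u, w, hu, hw, ?_⟩
  rw [← h1, Finset.sum_comm]
  refine Finset.sum_congr rfl fun i _ => Finset.sum_congr rfl fun j _ => ?_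
  rw [Matrix.transpose_apply]
  ring

theorem both {n : ℕ} (Λ : Set E) (v : Fin n → E)
    (h : ∀ M : Matrix (Fin n) (Fin n) E, (∀ i j, M i j ∈ Λ) → (∀ i, ∑ j, M i j * v j = 0) →
      HasRationalZero M) (M : Matrix (Fin n) (Fin n) E) (hM : ∀ i j, M i j ∈ Λ)
    (hv : IsKernel M v) : HasRationalZero M := by
  rcases hv with hv | hv
  · exact h M hM (fun i => congrFun hv i)
  · refine HasRationalZero.transpose (h M.transpose (fun i j => hM j i) (fun i => ?_))
    have h2 := congrFun hv i
    rw [Matrix.vecMul, dotProduct, Pi.zero_apply] at h2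
    rw [← h2]
    refine Finset.sum_congr rfl fun j _ => ?_
    rw [Matrix.transpose_apply, mul_comm]

theorem theorems_of (Λ : Submodule ℚ E) (hB : ∀ (d : ℕ) (b : Fin d → E), (∀ k, b k ∈ Λ) →
    LinearIndependent ℚ b → LinearIndependent (algebraicClosure ℚ E) b)
    (hH : Hyp (LinForms (Λ : Set E))) : Theorems E (Λ : Set E) := by
  have hΛV : ∀ z ∈ Λ, z ∈ LinForms (Λ : Set E) := fun z hz => Submodule.subset_span (Or.inr hz)
  have key : ∀ {n m : ℕ} (M : Matrix (Fin n) (Fin m) E), (∀ i j, M i j ∈ LinForms (Λ : Set E)) →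
      ∀ v : Fin m → E, (∀ i, ∑ j, M i j * v j = 0) → ∀ Z D : Submodule (Alg E) E,
      FiniteDimensional (Alg E) Z → FiniteDimensional (Alg E) D → (∀ z ∈ Z, ∀ j, z * v j ∈ D) →
      ∀ u : Fin m → Alg E, InClosure v u →
      finrank (Alg E) Z * finrank (Alg E)
        (Submodule.span (Alg E) (Set.range fun i => ∑ j, u j • M i j)) ≤
        finrank (Alg E) D * (finrank (Alg E) D - 1) := by
    intro n m M hM v hv Z D hZf hDf hZD u hu
    exact Pool.Agent.E8helper37.KS.rank_le hH M hM v hv Z D hZD u hu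
  have hcoe : ∀ {n m : ℕ} (M : Matrix (Fin n) (Fin m) E) (u : Fin m → Alg E),
      M.mulVec (fun j => (u j : E)) = fun i => ∑ j, u j • M i j := by
    intro n m M u
    funext i
    rw [Matrix.mulVec, dotProduct]
    refine Finset.sum_congr rfl fun j _ => ?_
    rw [Algebra.smul_def, mul_comm]
    rfl
  refine ⟨?_, ?_, ?_, ?_, ?_, ?_, ?_⟩
  · intro n m M hM v hv Z D hZD u hu
    obtain ⟨hZf, hDf, hZD⟩ := hZD
    rw [dimSpan, hcoe]
    exact key M hM v (fun i => congrFun hv i) Z D hZf hDf hZD u hu
  · intro n M hM v hv Z D hZD K _ _ ι u hu0 hu hn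
    obtain ⟨hZf, hDf, hZD⟩ := hZD
    refine both (Λ : Set E) v (fun M hM hv => ?_) M hM hv
    have h1 := key M (fun i j => hΛV _ (hM i j)) v hv Z D hZf hDf hZD _ hu
    refine Pool.Agent.E8helper37.KS.zero_of_rank Λ hB M hM K ι u hu0 ?_
    by_contra hcon
    push Not at hcon
    have h2 := Nat.mul_le_mul_right (finrank ℚ K) h1
    have h3 := Nat.mul_le_mul_right (finrank (Alg E) Z) hcon
    refine absurd (lt_of_le_of_lt (h3.trans (le_of_eq ?_)) (lt_of_le_of_lt h2 hn)) (lt_irrefl _)
    ring
  · intro n e F he hF hFΛ t ht hroot c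
    have h1 := Pool.Agent.E8helper37.KS.common_root hH n e he F hF (fun i j => hΛV _ (hFΛ i j)) t
      (Pool.Agent.E8helper37.KS.transcendental_closure ht) hroot (c : Alg E)
    have h2 : (fun i => (F i).eval (algebraMap (Alg E) E (c : Alg E))) =
        fun i => (F i).eval (c : E) := by
      funext i
      rw [map_ratCast]
    rw [h2] at h1
    refine (Pool.Agent.E8helper37.KS.finrank_rat_le Λ hB _ fun i => ?_).trans h1
    rw [eval_eq_sum_range]
    refine Submodule.sum_mem _ fun k _ => ?_
    have h3 : (F i).coeff k * (c : E) ^ k = (c ^ k : ℚ) • (F i).coeff k := by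
      rw [Rat.smul_def, mul_comm]
      push_cast
      rfl
    rw [h3]
    exact Λ.smul_mem _ (hFΛ i k)
  · intro n e F he hF hFΛ t ht hroot c
    exact Pool.Agent.E8helper37.KS.common_root hH n e he F hF hFΛ t (Pool.Agent.E8helper37.KS.transcendental_closure ht) hroot c
  · intro n e M hM K _ _ ι he hn P hP t h0 hv
    exact both (Λ : Set E) _ (fun M hM hv =>
      Pool.Agent.E8helper37.KS.zero_poly Λ hB _ hΛV hH M hM K ι e he hn P hP t h0 hv) M hM hv
  · intro n e r M hM K _ _ ι he hn P hP t ht h0 hv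
    exact both (Λ : Set E) _ (fun M hM hv =>
      Pool.Agent.E8helper37.KS.zero_mvpoly Λ hB _ hΛV hH M hM K ι r e he hn P hP t ht h0 hv) M hM hv
  · intro n d M hM K _ _ ι hn a x hx h0 hv
    exact both (Λ : Set E) _ (fun M hM hv =>
      Pool.Agent.E8helper37.KS.zero_span Λ hB _ hΛV hH M hM K ι d hn a x hx h0 hv) M hM hv

end proofs

/-- **Main result.** For the complex logarithms, and for the `p`-adic logarithms, of the nonzero
algebraic numbers. -/
theorem result :
    Theorems ℂ {z : ℂ | IsAlgebraic ℚ (Complex.exp z)} ∧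
    ∀ (p : ℕ) [Fact p.Prime] (L : PadicAlgCl p → PadicAlgCl p), IsIwasawaLog p L →
      Theorems (PadicAlgCl p)
        {z : PadicAlgCl p | ∃ α : PadicAlgCl p, α ≠ 0 ∧ IsAlgebraic ℚ α ∧ z = L α} := by
  constructor
  · refine theorems_of Pool.Agent.H301R2.SSE.Lg ?_ ?_
    · intro d b hb hli
      have h1 := Pool.Agent.W254.HP.opt_indep b (fun k => hb k) hli
      exact h1.comp some (Option.some_injective _)
    · intro d l x a hx ha hxa hcol
      exact Pool.Agent.W254.HP.hyperplane d l x a hx ha hxa hcol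
  · intro p _ L hL
    have hL' : Pool.Agent.W245.PB.IsIwasawaLog p L := ⟨hL.1, hL.2.1, hL.2.2⟩
    refine theorems_of (Pool.Agent.W332.OK.logSp hL') ?_ (Pool.Agent.W254.PA.hyp_padic hL')
    intro d b hb hli
    choose α hα hα' hbα using hb
    have h0 : b = fun k => L (α k) := funext hbα
    rw [h0] at hli ⊢
    have h1 := Pool.Agent.W254.PA.optP_indep hL' α hα hα' hli
    exact h1.comp some (Option.some_injective _)

end Pool.Agent.Results.MP_1f047c_nt.KernelCurveH37
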