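import Pool.Agent.E8helper92.PQ.Col

/-!
# Singular matrices of `p`-adic logarithms: the degree over the field of a kernel vector

Let `K` be a field between `ℚ_p` and its algebraic closure. All `p`-adic logarithms of algebraic
numbers which occur in a linear relation `u_1 λ_1 + ... + u_n λ_n = 0` with given rationally
independent coefficients `u_i` in `K` are in one extension of `K` of degree at most
`3 ^ ((n (n - 1)) ^ 2)`. Consequently, if a singular `n × n` matrix `M` of logarithms has a nonzero
kernel vector over `K` then either the conclusion of Q2 holds, or for some `m` with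
`n ≤ m (m - 1)` there are `m` independent rational vectors `v` such that all coordinates of all `M v`
are in one extension of `K` of degree at most `3 ^ ((m (m - 1)) ^ 2)`.

The proof uses the `p`-adic hyperplane theorem of the starting files `Pool.Agent.W254.PA`, the
Galois action on the finite-dimensional rational space of all solutions, and reduction modulo three of
the finite group by which the Galois group acts.
-/

set_option autoImplicit false

namespace Pool.Agent.Results.MP_1f047c_nt.KernelFieldDegreeH92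

open Module

/-- `L` is the Iwasawa `p`-adic logarithm on the algebraic closure of `ℚ_p`. -/
def IsIwasawaLog (p : ℕ) [Fact p.Prime] (L : PadicAlgCl p → PadicAlgCl p) : Prop :=
  (∀ x y : PadicAlgCl p, x ≠ 0 → y ≠ 0 → L (x * y) = L x + L y) ∧
  L ((p : ℕ) : PadicAlgCl p) = 0 ∧
  ∀ z : PadicAlgCl p, ‖z‖ < 1 →
    HasSum (fun n : ℕ => (-1 : PadicAlgCl p) ^ n * z ^ (n + 1) / ((n : PadicAlgCl p) + 1))
      (L (1 + z))

/-- **Main result.** Let `K` be any field between `ℚ_p` and its algebraic closure.

1. Let `u_1, ..., u_n` in `K` be linearly independent over `ℚ`. There is an extension `E` of `K` with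
`[E : K] ≤ 3 ^ ((n (n - 1)) ^ 2)` such that for all nonzero algebraic numbers `α_1, ..., α_n` with
`u_1 log α_1 + ... + u_n log α_n = 0` the logarithms `log α_i` are in `E`.

2. Let `M` be an `n × n` matrix of logarithms with `M u = 0` for a nonzero vector `u` over `K`. Then
`wᵗ M v = 0` for some nonzero rational vectors `w`, `v`, or there are a number `m` with
`n ≤ m (m - 1)`, linearly independent rational vectors `v_1, ..., v_m` and an extension `E` of `K`
with `[E : K] ≤ 3 ^ ((m (m - 1)) ^ 2)` such that all coordinates of `M v_1, ..., M v_m` are in `E`. -/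
theorem result (p : ℕ) [Fact p.Prime] (L : PadicAlgCl p → PadicAlgCl p) (hL : IsIwasawaLog p L)
    (K : IntermediateField ℚ_[p] (PadicAlgCl p)) (n : ℕ) :
    (∀ u : Fin n → PadicAlgCl p, (∀ i, u i ∈ K) → LinearIndependent ℚ u →
      ∃ E : IntermediateField K (PadicAlgCl p), FiniteDimensional K E ∧
        finrank K E ≤ 3 ^ ((n * (n - 1)) ^ 2) ∧
        ∀ α : Fin n → PadicAlgCl p, (∀ i, α i ≠ 0 ∧ IsAlgebraic ℚ (α i)) →
          ∑ i, u i * L (α i) = 0 → ∀ i, L (α i) ∈ E) ∧
    (∀ M : Matrix (Fin n) (Fin n) (PadicAlgCl p),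
      (∀ i j, ∃ α : PadicAlgCl p, α ≠ 0 ∧ IsAlgebraic ℚ α ∧ M i j = L α) →
      ∀ u : Fin n → PadicAlgCl p, (∀ i, u i ∈ K) → u ≠ 0 → (∀ i, ∑ j, M i j * u j = 0) →
        (∃ w v : Fin n → ℚ, w ≠ 0 ∧ v ≠ 0 ∧
          ∑ i, ∑ j, (w i : PadicAlgCl p) * M i j * (v j : PadicAlgCl p) = 0) ∨
        ∃ (m : ℕ) (v : Fin m → Fin n → ℚ), LinearIndependent ℚ v ∧ n ≤ m * (m - 1) ∧
          ∃ E : IntermediateField K (PadicAlgCl p), FiniteDimensional K E ∧
            finrank K E ≤ 3 ^ ((m * (m - 1)) ^ 2) ∧
            ∀ k i, ∑ j, M i j * (v k j : PadicAlgCl p) ∈ E) := by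
  have hL' : Pool.Agent.W245.PB.IsIwasawaLog p L := ⟨hL.1, hL.2.1, hL.2.2⟩
  constructor
  · intro u hu hli
    obtain ⟨E, h1, h2, h3⟩ := Pool.Agent.E8helper92.PQ.deg K
      (Pool.Agent.E8helper92.PQ.LogsQ hL') (Pool.Agent.E8helper92.PQ.hypQ hL')
      (fun σ v hv => Pool.Agent.E8helper92.PQ.logsQ_galois hL' K σ hv) hu hli
    exact ⟨E, h1, h2, fun α hα hsum i =>
      h3 (fun i => L (α i)) (fun i => ⟨α i, (hα i).1, (hα i).2, rfl⟩) hsum i⟩
  · intro M hM u hu hu0 hker
    exact Pool.Agent.E8helper92.PQ.many_columns K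
      (Pool.Agent.E8helper92.PQ.LogsQ hL') (Pool.Agent.E8helper92.PQ.hypQ hL')
      (fun σ v hv => Pool.Agent.E8helper92.PQ.logsQ_galois hL' K σ hv) M hM hu hu0 hker

end Pool.Agent.Results.MP_1f047c_nt.KernelFieldDegreeH92
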