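import Pool.Agent.E8helper92.PQ.Row

/-!
# Matrices of `p`-adic logarithms with all rows but one over `K` and a last row of large degree

Let `K` be a field between `ℚ_p` and its algebraic closure. We show that an `n × n` matrix of
`p`-adic logarithms of algebraic numbers is regular if all its rows but one are over `K` and linearly
independent, and if all nontrivial rational combinations of the entries of the remaining row have
degree more than `3 ^ ((n (n - 1)) ^ 2)` over `K`. If the numbers in the remaining row are congruent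
to `1` modulo `p ^ 3` then the last condition can be replaced by the same condition for the degrees of
the nontrivial products of powers of these numbers.

The proof uses the `p`-adic hyperplane theorem of the starting files `Pool.Agent.W254.PA` and the
Galois action over `K` (`KernelFieldDegreeH92`).
-/

set_option autoImplicit false

namespace Pool.Agent.Results.MP_1f047c_nt.LargeDegreeRowH92

/-- `L` is the Iwasawa `p`-adic logarithm on the algebraic closure of `ℚ_p`. -/
def IsIwasawaLog (p : ℕ) [Fact p.Prime] (L : PadicAlgCl p → PadicAlgCl p) : Prop :=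
  (∀ x y : PadicAlgCl p, x ≠ 0 → y ≠ 0 → L (x * y) = L x + L y) ∧
  L ((p : ℕ) : PadicAlgCl p) = 0 ∧
  ∀ z : PadicAlgCl p, ‖z‖ < 1 →
    HasSum (fun n : ℕ => (-1 : PadicAlgCl p) ^ n * z ^ (n + 1) / ((n : PadicAlgCl p) + 1))
      (L (1 + z))

/-- **Main result.** Let `K` be any field between `ℚ_p` and its algebraic closure.

1. Let `M` be an `n × n` matrix of logarithms of algebraic numbers. If the rows `i ≠ i₀` have entries
in `K` and are linearly independent, and if `v_1 M_{i₀ 1} + ... + v_n M_{i₀ n}` has degree more than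
`3 ^ ((n (n - 1)) ^ 2)` over `K` for all nonzero integral vectors `v`, then `det M ≠ 0`.

2. Let `A` be an `n × n` matrix of nonzero algebraic numbers. If the `A_{i j}`, `i ≠ i₀`, are in `K`,
the rows `i ≠ i₀` of the matrix `(log A_{i j})` are linearly independent, the `A_{i₀ j}` are congruent
to `1` modulo `p ^ 3`, and `A_{i₀ 1} ^ v_1 ⋯ A_{i₀ n} ^ v_n` has degree more than
`3 ^ ((n (n - 1)) ^ 2)` over `K` for all nonzero integral vectors `v`, then the determinant of
`(log A_{i j})` is not zero. -/
theorem result (p : ℕ) [Fact p.Prime] (L : PadicAlgCl p → PadicAlgCl p) (hL : IsIwasawaLog p L)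
    (K : IntermediateField ℚ_[p] (PadicAlgCl p)) (n : ℕ) (i₀ : Fin n) :
    (∀ M : Matrix (Fin n) (Fin n) (PadicAlgCl p),
      (∀ i j, ∃ α : PadicAlgCl p, α ≠ 0 ∧ IsAlgebraic ℚ α ∧ M i j = L α) →
      (∀ i, i ≠ i₀ → ∀ j, M i j ∈ K) →
      LinearIndependent (PadicAlgCl p) (fun i : {i // i ≠ i₀} => fun j => M i j) →
      (∀ v : Fin n → ℤ, v ≠ 0 → 3 ^ ((n * (n - 1)) ^ 2) <
        (minpoly K (∑ j, (v j : PadicAlgCl p) * M i₀ j)).natDegree) → M.det ≠ 0) ∧
    (∀ A : Matrix (Fin n) (Fin n) (PadicAlgCl p), (∀ i j, A i j ≠ 0 ∧ IsAlgebraic ℚ (A i j)) →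
      (∀ i, i ≠ i₀ → ∀ j, A i j ∈ K) →
      LinearIndependent (PadicAlgCl p) (fun i : {i // i ≠ i₀} => fun j => L (A i j)) →
      (∀ j, ‖A i₀ j - 1‖ * (p : ℝ) ^ 3 ≤ 1) →
      (∀ v : Fin n → ℤ, v ≠ 0 → 3 ^ ((n * (n - 1)) ^ 2) <
        (minpoly K (∏ j, A i₀ j ^ v j)).natDegree) → (A.map L).det ≠ 0) := by
  have hL' : Pool.Agent.W245.PB.IsIwasawaLog p L := ⟨hL.1, hL.2.1, hL.2.2⟩
  constructor
  · intro M hM hK hrows hdeg
    exact Pool.Agent.E8helper92.PQ.last_row_int K
      (Pool.Agent.E8helper92.PQ.LogsQ hL') (Pool.Agent.E8helper92.PQ.hypQ hL')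
      (fun σ v hv => Pool.Agent.E8helper92.PQ.logsQ_galois hL' K σ hv) M hM i₀ hK hrows hdeg
  · intro A hA hK hrows hnear hdeg
    exact Pool.Agent.E8helper92.PQ.last_row_log hL' K A hA i₀ hK hrows hnear hdeg

end Pool.Agent.Results.MP_1f047c_nt.LargeDegreeRowH92
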