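import Pool.Agent.E8helper3.PT.All

/-!
# Linear families of matrices of logarithms

Let `𝒜` be ANY rational space of rational `n × n` matrices, `m = dim 𝒜`, and `M₀` any fixed `n × n`
matrix of complex (`p`-adic) logarithms of algebraic numbers.  The family of the matrices
`M = M₀ + ∑ A_k l_k` with `A_k ∈ 𝒜` and logarithms `l_k` of algebraic numbers contains for instance
the Hankel matrices, the symmetric matrices, the matrices with prescribed entries off a set of
positions.  An exception of rank `≤ r` is a matrix of rank at most `r < n` without rational zero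
(a violation of Q1, Q2 if `r = n - 1`).  Let `a(s)` be the maximal dimension of a subspace of `𝒜` all
of whose matrices have rank at most `s`, and let `ρ = 0` if `2 r ≤ n + 1` and `ρ = a(2 r - n)`
otherwise.

* Dimension.  The exceptions of rank `≤ r` in the family `M₀ + 𝒜 ⊗ W`, `W` a finite-dimensional
  rational space of logarithms, lie in an algebraic subset (over `ℚ`) of dimension at most
  `ρ dim W + (m - ρ) (m - 1)`.
* Counting.  Let `l_1, ..., l_N` be logarithms of algebraic numbers which are linearly independent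
  over `ℚ`.  At most `κ H ^ (ρ N + (m - ρ) (m - 1))` of the matrices `M₀ + ∑ A_k l_k` of the family,
  `A_k ∈ 𝒜` integral with entries of absolute value at most `H`, are exceptions of rank `≤ r`.
  For `M₀ = 0` at least `H ^ (a(r) N) / κ` of them have rank at most `r`.
* Hankel matrices: `a(s) = s` for `s < n` and `m = 2 n - 1`.  So at least `H ^ (r N) / κ` Hankel
  matrices of rank `≤ r` and at most `κ H ^ ((2 r - n) N + c)` exceptions.
* Symmetric matrices: `s (s + 1) / 2 ≤ a(s) ≤ s (n + 1) / 2` and `m = n (n + 1) / 2`.  So for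
  every `r < n` the exceptions have a smaller exponent than the symmetric matrices of rank `≤ r`:
  `(2 r - n) (n + 1) < r (r + 1)`.

The proof: the theorem on rational linear spaces through the points of a variety (`Y787.AS.Var`, a
starting file), applied to the determinantal variety pulled back to the family, whose equations have
transcendental coefficients if `M₀ ≠ 0`; a line `M + x C` of matrices of rank `≤ r` gives a
rational zero if `rank C > 2 r - n`; the maximal dimensions `a(s)`: for Hankel matrices by the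
Wronskian (some translate of the space contains a matrix with an antitriangular block of size
`dim`), for symmetric matrices by isotropic subspaces.
-/

set_option autoImplicit false

namespace Pool.Agent.Results.MP_1f047c_nt.LinearFamiliesH3

/-- `L` is the Iwasawa logarithm on the algebraic closure of `ℚ_p`. -/
structure IsIwasawaLog (p : ℕ) [Fact p.Prime] (L : PadicAlgCl p → PadicAlgCl p) : Prop where
  mul : ∀ x y : PadicAlgCl p, x ≠ 0 → y ≠ 0 → L (x * y) = L x + L y
  prime : L ((p : ℕ) : PadicAlgCl p) = 0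
  ser : ∀ z : PadicAlgCl p, ‖z‖ < 1 →
    HasSum (fun n : ℕ => (-1 : PadicAlgCl p) ^ n * z ^ (n + 1) / ((n : PadicAlgCl p) + 1))
      (L (1 + z))

/-- The conclusion of Q1 and Q2: there are nonzero rational vectors `w`, `v` with `wᵗ M v = 0`. -/
def HasRationalZero {E : Type} [Field E] [CharZero E] {n : ℕ} (M : Matrix (Fin n) (Fin n) E) :
    Prop :=
  ∃ w v : Fin n → ℚ, w ≠ 0 ∧ v ≠ 0 ∧ ∑ i, ∑ j, (w i : E) * M i j * (v j : E) = 0

/-- An exception: a matrix of rank at most `r` without rational zero. -/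
def IsException {E : Type} [Field E] [CharZero E] {n : ℕ} (r : ℕ)
    (M : Matrix (Fin n) (Fin n) E) : Prop :=
  M.rank ≤ r ∧ ¬ HasRationalZero M

/-- The maximal dimension of a subspace of `𝒜` all of whose matrices have rank at most `s`. -/
noncomputable def smallRank {n : ℕ} (𝒜 : Submodule ℚ (Matrix (Fin n) (Fin n) ℚ)) (s : ℕ) : ℕ :=
  sSup {d | ∃ R : Submodule ℚ (Matrix (Fin n) (Fin n) ℚ), R ≤ 𝒜 ∧ (∀ A ∈ R, A.rank ≤ s) ∧
    Module.finrank ℚ R = d}

/-- The coefficient `ρ`: zero if `2 r ≤ n + 1`, and `smallRank 𝒜 (2 r - n)` otherwise. -/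
noncomputable def coefficient {n : ℕ} (𝒜 : Submodule ℚ (Matrix (Fin n) (Fin n) ℚ)) (r : ℕ) : ℕ :=
  if 2 * r ≤ n + 1 then 0 else smallRank 𝒜 (2 * r - n)

/-- The exponent `ρ D + (m - ρ) (m - 1)`, `m` the dimension of `𝒜`. -/
noncomputable def exponent {n : ℕ} (𝒜 : Submodule ℚ (Matrix (Fin n) (Fin n) ℚ)) (r D : ℕ) : ℕ :=
  coefficient 𝒜 r * D +
    (Module.finrank ℚ 𝒜 - coefficient 𝒜 r) * (Module.finrank ℚ 𝒜 - 1)

/-- The matrix `A` with entries in `W` lies in `𝒜 ⊗ W`: its images under all linear forms on `W`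
lie in `𝒜`. -/
def InFamily {E : Type} [Field E] [CharZero E] {n : ℕ}
    (𝒜 : Submodule ℚ (Matrix (Fin n) (Fin n) ℚ)) {W : Submodule ℚ E}
    (A : Matrix (Fin n) (Fin n) W) : Prop :=
  ∀ f : W →ₗ[ℚ] ℚ, A.map f ∈ 𝒜

/-- The set `S` of matrices with entries in `W` lies in an algebraic subset of dimension at most
`d`: any `d + 1` rational linear forms satisfy a nontrivial polynomial relation on `S`. -/
def DimensionAtMost {E : Type} [Field E] [CharZero E] (W : Submodule ℚ E) {n : ℕ}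
    (d : ℕ) (S : Set (Matrix (Fin n) (Fin n) W)) : Prop :=
  ∀ φ : Fin (d + 1) → (Matrix (Fin n) (Fin n) W →ₗ[ℚ] ℚ),
    ∃ P : MvPolynomial (Fin (d + 1)) ℚ, P ≠ 0 ∧
      ∀ A ∈ S, MvPolynomial.eval (fun k => φ k A) P = 0

/-- The matrix with the entries `M₀ i j + ∑ k, A i j k * l k`. -/
noncomputable def logMatrix {E : Type} [Field E] {n N : ℕ} (M₀ : Matrix (Fin n) (Fin n) E)
    (l : Fin N → E) (A : Fin n → Fin n → Fin N → ℤ) : Matrix (Fin n) (Fin n) E :=
  M₀ + Matrix.of fun i j => ∑ k, (A i j k : E) * l k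

/-- The number of the integer arrays `A` with entries of absolute value at most `H`, all of whose
slices `(A i j k)_{i, j}` lie in `𝒜`, such that `M₀ + ∑ k, A · · k * l k` has the property `Q`. -/
noncomputable def number {E : Type} [Field E] {n N : ℕ}
    (𝒜 : Submodule ℚ (Matrix (Fin n) (Fin n) ℚ)) (M₀ : Matrix (Fin n) (Fin n) E)
    (l : Fin N → E) (H : ℕ) (Q : Matrix (Fin n) (Fin n) E → Prop) : ℕ :=
  Set.ncard {A : Fin n → Fin n → Fin N → ℤ | (∀ i j k, |A i j k| ≤ H) ∧
    ((∀ k, (Matrix.of fun i j => (A i j k : ℚ)) ∈ 𝒜) ∧ Q (logMatrix M₀ l A))}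

/-- The theorem for all linear families, for the logarithms `z` with `IsLog z` in the field `E`. -/
def HoldsForAllFamilies (E : Type) [Field E] [CharZero E] (IsLog : E → Prop) : Prop :=
  ∀ (n r : ℕ), r < n → ∀ 𝒜 : Submodule ℚ (Matrix (Fin n) (Fin n) ℚ),
    (∀ M₀ : Matrix (Fin n) (Fin n) E, (∀ i j, IsLog (M₀ i j)) →
      (∀ (W : Submodule ℚ E) [FiniteDimensional ℚ W], (∀ z ∈ W, IsLog z) →
        DimensionAtMost W (exponent 𝒜 r (Module.finrank ℚ W))
          {A : Matrix (Fin n) (Fin n) W |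
            InFamily 𝒜 A ∧ IsException r (M₀ + A.map (fun x => (x : E)))}) ∧
      ∀ (N : ℕ) (l : Fin N → E), (∀ k, IsLog (l k)) → LinearIndependent ℚ l →
        ∃ κ : ℕ, ∀ H : ℕ, 1 ≤ H →
          number 𝒜 M₀ l H (fun M => IsException r M) ≤ κ * H ^ exponent 𝒜 r N) ∧
    ∀ (N : ℕ) (l : Fin N → E), ∃ κ : ℕ, 1 ≤ κ ∧ ∀ H : ℕ,
      H ^ (smallRank 𝒜 r * N) ≤ κ * number 𝒜 0 l H (fun M => M.rank ≤ r)

/-- The space of the Hankel matrices. -/
def hankel (n : ℕ) : Submodule ℚ (Matrix (Fin n) (Fin n) ℚ) where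
  carrier := {A | ∀ i j i' j' : Fin n, (i : ℕ) + j = i' + j' → A i j = A i' j'}
  add_mem' := by
    intro A B hA hB i j i' j' h
    rw [Matrix.add_apply, Matrix.add_apply, hA i j i' j' h, hB i j i' j' h]
  zero_mem' := fun _ _ _ _ _ => rfl
  smul_mem' := by
    intro c A hA i j i' j' h
    rw [Matrix.smul_apply, Matrix.smul_apply, hA i j i' j' h]

/-- The space of the symmetric matrices. -/
def symmetric (n : ℕ) : Submodule ℚ (Matrix (Fin n) (Fin n) ℚ) where
  carrier := {A | ∀ i j : Fin n, A i j = A j i}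
  add_mem' := by
    intro A B hA hB i j
    rw [Matrix.add_apply, Matrix.add_apply, hA i j, hB i j]
  zero_mem' := fun _ _ => rfl
  smul_mem' := by
    intro c A hA i j
    rw [Matrix.smul_apply, Matrix.smul_apply, hA i j]

/-- **Main result.** -/
theorem result :
    -- complex logarithms
    HoldsForAllFamilies ℂ (fun z => IsAlgebraic ℚ (Complex.exp z)) ∧
    -- `p`-adic logarithms
    (∀ (p : ℕ) [Fact p.Prime] (L : PadicAlgCl p → PadicAlgCl p), IsIwasawaLog p L →
      HoldsForAllFamilies (PadicAlgCl p)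
        (fun z => ∃ α : PadicAlgCl p, α ≠ 0 ∧ IsAlgebraic ℚ α ∧ z = L α)) ∧
    -- Hankel matrices
    (∀ n s : ℕ, s < n → Module.finrank ℚ (hankel n) = 2 * n - 1 ∧ smallRank (hankel n) s = s) ∧
    -- symmetric matrices
    (∀ n s : ℕ, s ≤ n → 2 * Module.finrank ℚ (symmetric n) = n * (n + 1) ∧
      s * (s + 1) ≤ 2 * smallRank (symmetric n) s ∧
      2 * smallRank (symmetric n) s ≤ s * (n + 1)) ∧
    -- comparison of the exponents
    ∀ n r : ℕ, r < n → n < 2 * r →
      smallRank (hankel n) (2 * r - n) < smallRank (hankel n) r ∧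
      smallRank (symmetric n) (2 * r - n) < smallRank (symmetric n) r := by
  refine ⟨?_, ?_, ?_, ?_, ?_⟩
  · intro n r hr 𝒜
    refine ⟨fun M₀ hM₀ => ⟨?_, ?_⟩, fun N l => Pool.Agent.E8helper3.PT.lower_sr 𝒜 r l⟩
    · intro W _ hW φ
      obtain ⟨P, h1, h2⟩ := Pool.Agent.E8helper3.PT.famC_dim W hW hr 𝒜
        (Pool.Agent.E8helper3.PT.coef_sr 𝒜 r) (Pool.Agent.E8helper3.PT.coef_le 𝒜 r) M₀ hM₀ φ
      exact ⟨P, h1, fun A hA => h2 A hA.1 hA.2.1 hA.2.2⟩
    · intro N l hl hli
      exact Pool.Agent.E8helper3.PT.famC_count hr 𝒜 (Pool.Agent.E8helper3.PT.coef_sr 𝒜 r)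
        (Pool.Agent.E8helper3.PT.coef_le 𝒜 r) M₀ hM₀ l hl hli
  · intro p _ L hL n r hr 𝒜
    have hL' : Pool.Agent.W245.PB.IsIwasawaLog p L := ⟨hL.mul, hL.prime, hL.ser⟩
    refine ⟨fun M₀ hM₀ => ⟨?_, ?_⟩, fun N l => Pool.Agent.E8helper3.PT.lower_sr 𝒜 r l⟩
    · intro W _ hW φ
      obtain ⟨P, h1, h2⟩ := Pool.Agent.E8helper3.PT.famP_dim hL' W hW hr 𝒜
        (Pool.Agent.E8helper3.PT.coef_sr 𝒜 r) (Pool.Agent.E8helper3.PT.coef_le 𝒜 r) M₀ hM₀ φ
      exact ⟨P, h1, fun A hA => h2 A hA.1 hA.2.1 hA.2.2⟩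
    · intro N l hl hli
      exact Pool.Agent.E8helper3.PT.famP_count hL' hr 𝒜 (Pool.Agent.E8helper3.PT.coef_sr 𝒜 r)
        (Pool.Agent.E8helper3.PT.coef_le 𝒜 r) M₀ hM₀ l hl hli
  · intro n s hs
    exact ⟨Pool.Agent.E8helper3.PT.t_HD.1 n (by omega),
      Pool.Agent.E8helper3.PT.sr_hankel Pool.Agent.E8helper3.PT.t_HK
        Pool.Agent.E8helper3.PT.t_HD hs⟩
  · intro n s hs
    exact ⟨Pool.Agent.E8helper3.PT.t_SD.1 n,
      Pool.Agent.E8helper3.PT.le_sr_sym Pool.Agent.E8helper3.PT.t_SD hs,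
      Pool.Agent.E8helper3.PT.sr_sym_le Pool.Agent.E8helper3.PT.t_SY n s⟩
  · intro n r h1 h2
    exact Pool.Agent.E8helper3.PT.compare Pool.Agent.E8helper3.PT.t_HK
      Pool.Agent.E8helper3.PT.t_HD Pool.Agent.E8helper3.PT.t_SY Pool.Agent.E8helper3.PT.t_SD h1 h2

end Pool.Agent.Results.MP_1f047c_nt.LinearFamiliesH3
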